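import Pool.Agent.H545Z.SOS8

namespace Pool.Agent.Results.MP_39acf6_an.AllValues

open Pool.Agent.H545Z.SOSD

/-- The least rank is `8` for `n = 4` and `C(n+1,2) - 1` for all other `n ≥ 2`, for all `d ≥ 2`. -/
theorem result (n d : ℕ) (hn : 2 ≤ n) (hd : 2 ≤ d) :
    IsLeast (ranks n d) (if n = 4 then 8 else (n + 1).choose 2 - 1) :=
  Pool.Agent.H545Z.SOS.all_values n d hn hd

end Pool.Agent.Results.MP_39acf6_an.AllValues
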